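import Mathlib
import Pool.Agent.H455Z.LimFin

set_option autoImplicit false

open CategoryTheory CategoryTheory.Limits

namespace Pool.Agent.Results.MP_e6182f_al.OneModule

/-- `X` lies in `add M`: it is a direct summand of a finite direct sum of copies of `M`. -/
def InFinAdd {R : Type} [Ring R] (M X : ModuleCat.{0} R) : Prop :=
  ∃ (n : ℕ) (f : X →ₗ[R] DirectSum (Fin n) fun _ => M) (g : (DirectSum (Fin n) fun _ => M) →ₗ[R] X),
    g ∘ₗ f = LinearMap.id

/-- `X` lies in `Add M`: it is a direct summand of an arbitrary direct sum of copies of `M`. -/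
def InAdd {R : Type} [Ring R] (M X : ModuleCat.{0} R) : Prop :=
  ∃ (ι : Type) (f : X →ₗ[R] DirectSum ι fun _ => M) (g : (DirectSum ι fun _ => M) →ₗ[R] X),
    g ∘ₗ f = LinearMap.id

/-- `N` is isomorphic to the direct limit of a direct system of modules from the class `C`,
indexed by a nonempty upward directed poset. -/
def IsDirLim {R : Type} [Ring R] (C : ModuleCat.{0} R → Prop) (N : ModuleCat.{0} R) : Prop :=
  ∃ (J : Type) (_ : PartialOrder J) (_ : IsDirected J (· ≤ ·)) (_ : Nonempty J)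
    (F : J ⥤ ModuleCat.{0} R) (c : Cocone F),
    (∀ j, C (F.obj j)) ∧ Nonempty (IsColimit c) ∧ Nonempty (c.pt ≅ N)

open Pool.Agent.H455Z in
theorem result : ∃ (R : Type) (_ : Ring R) (M N : ModuleCat.{0} R),
    IsDirLim (InAdd M) N ∧ ¬ IsDirLim (InFinAdd M) N := by
  classical
  refine ⟨LimRing.R, inferInstance, ModuleCat.of _ LimRing.M, LimN.N, ?_, ?_⟩
  · refine ⟨ℕ, inferInstance, inferInstance, inferInstance, LimN.F, LimN.cc, fun j => ⟨LimRing.I,
      (finsuppLEquivDirectSum LimRing.R LimRing.M LimRing.I).toLinearMap,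
      (finsuppLEquivDirectSum LimRing.R LimRing.M LimRing.I).symm.toLinearMap,
      LinearMap.ext fun x => ?_⟩, ⟨LimN.hcc⟩, ⟨Iso.refl _⟩⟩
    exact (finsuppLEquivDirectSum LimRing.R LimRing.M LimRing.I).symm_apply_apply x
  · rintro ⟨J, i1, i2, i3, G, d, hG, hd, he⟩
    refine LimFin.not_lim_add ⟨J, inferInstance, inferInstance, G, fun j => ?_, d, hd, he⟩
    obtain ⟨n, f, g, h⟩ := hG j
    exact ⟨n, fun _ => ModuleCat.of _ LimRing.M, fun _ => rfl, f, g, h⟩

end Pool.Agent.Results.MP_e6182f_al.OneModule
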